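import Mathlib

set_option autoImplicit false

namespace Pool.Agent.H.MP_1f0029_co

open Finset

variable {V : Type} [DecidableEq V]

/-- independent set -/
def Ip (G : SimpleGraph V) (s : Finset V) : Prop := ∀ x ∈ s, ∀ y ∈ s, ¬ G.Adj x y

noncomputable instance (G : SimpleGraph V) : DecidablePred (Ip G) := Classical.decPred _

/-- number of independent subsets of `W` -/
noncomputable def ind (G : SimpleGraph V) (W : Finset V) : ℕ :=
  (W.powerset.filter (Ip G)).card

open Classical in
noncomputable def nn (G : SimpleGraph V) (v : V) (W : Finset V) : Finset V :=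
  W.filter (fun x => ¬ G.Adj v x)

theorem mem_nn {G : SimpleGraph V} {v x : V} {W : Finset V} :
    x ∈ nn G v W ↔ x ∈ W ∧ ¬ G.Adj v x := by
  classical
  simp [nn]

theorem nn_sub (G : SimpleGraph V) (v : V) (W : Finset V) : nn G v W ⊆ W :=
  fun _ h => (mem_nn.1 h).1

theorem nn_insert_adj {G : SimpleGraph V} {v x : V} (W : Finset V) (h : G.Adj v x) :
    nn G v (insert x W) = nn G v W := by
  ext y; simp only [mem_nn, mem_insert]
  constructor
  · rintro ⟨rfl | h1, h2⟩
    · exact absurd h h2
    · exact ⟨h1, h2⟩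
  · rintro ⟨h1, h2⟩; exact ⟨Or.inr h1, h2⟩

theorem nn_insert_nadj {G : SimpleGraph V} {v x : V} (W : Finset V) (h : ¬ G.Adj v x) :
    nn G v (insert x W) = insert x (nn G v W) := by
  ext y; simp only [mem_nn, mem_insert]
  constructor
  · rintro ⟨rfl | h1, h2⟩
    · exact Or.inl rfl
    · exact Or.inr ⟨h1, h2⟩
  · rintro (rfl | ⟨h1, h2⟩)
    · exact ⟨Or.inl rfl, h⟩
    · exact ⟨Or.inr h1, h2⟩

theorem ind_insert (G : SimpleGraph V) {v : V} {W : Finset V} (hv : v ∉ W) :
    ind G (insert v W) = ind G W + ind G (nn G v W) := by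
  classical
  unfold ind
  rw [powerset_insert, filter_union, card_union_of_disjoint]
  · congr 1
    symm
    apply card_bij (fun s _ => insert v s)
    · intro s hs
      simp only [mem_filter, mem_powerset, mem_image] at hs ⊢
      refine ⟨⟨s, hs.1.trans (nn_sub _ _ _), rfl⟩, ?_⟩
      intro x hx y hy
      rcases mem_insert.1 hx with h1 | h1 <;> rcases mem_insert.1 hy with h2 | h2
      · rw [h1, h2]; exact G.irrefl
      · rw [h1]; exact (mem_nn.1 (hs.1 h2)).2
      · rw [h2]; exact fun h => (mem_nn.1 (hs.1 h1)).2 h.symm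
      · exact hs.2 x h1 y h2
    · intro s hs t ht h
      simp only [mem_filter, mem_powerset] at hs ht
      have h1 : v ∉ s := fun h' => hv (nn_sub _ _ _ (hs.1 h'))
      have h2 : v ∉ t := fun h' => hv (nn_sub _ _ _ (ht.1 h'))
      rw [← erase_insert h1, ← erase_insert h2, h]
    · intro s hs
      simp only [mem_filter, mem_powerset, mem_image] at hs ⊢
      obtain ⟨⟨t, ht, rfl⟩, h2⟩ := hs
      refine ⟨t, ⟨?_, ?_⟩, rfl⟩
      · intro x hx
        exact mem_nn.2 ⟨ht hx, h2 v (mem_insert_self _ _) x (mem_insert_of_mem hx)⟩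
      · intro x hx y hy
        exact h2 x (mem_insert_of_mem hx) y (mem_insert_of_mem hy)
  · rw [disjoint_left]
    intro s hs ht
    simp only [mem_filter, mem_powerset, mem_image] at hs ht
    obtain ⟨⟨t, -, rfl⟩, -⟩ := ht
    exact hv (hs.1 (mem_insert_self _ _))

theorem ind_le (G : SimpleGraph V) (W : Finset V) : ind G W ≤ 2 ^ W.card := by
  classical
  unfold ind
  rw [← card_powerset]; exact card_filter_le _ _

theorem ind_pos (G : SimpleGraph V) (W : Finset V) : 1 ≤ ind G W := by
  classical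
  unfold ind
  exact card_pos.2 ⟨∅, by simp [Ip]⟩

theorem ind_mono (G : SimpleGraph V) {W W' : Finset V} (h : W ⊆ W') : ind G W ≤ ind G W' := by
  classical
  unfold ind
  exact card_le_card (filter_subset_filter _ (powerset_mono.2 h))

theorem ind_indep (G : SimpleGraph V) {W : Finset V} (h : ∀ x ∈ W, ∀ y ∈ W, ¬ G.Adj x y) :
    ind G W = 2 ^ W.card := by
  classical
  unfold ind
  rw [filter_true_of_mem, card_powerset]
  intro s hs x hx y hy
  exact h x (mem_powerset.1 hs hx) y (mem_powerset.1 hs hy)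

theorem ind_iso (G : SimpleGraph V) (K : Finset V) (Z : Finset V) (hd : Disjoint Z K)
    (h : ∀ x ∈ Z, ∀ y ∈ Z ∪ K, ¬ G.Adj x y) : ind G (Z ∪ K) = 2 ^ Z.card * ind G K := by
  induction Z using Finset.induction_on with
  | empty => simp
  | insert a Z ha ih =>
    have haK : a ∉ K := disjoint_left.1 hd (mem_insert_self _ _)
    have h1 : a ∉ Z ∪ K := by simp [ha, haK]
    rw [insert_union, ind_insert G h1, card_insert_of_notMem ha]
    have h2 : nn G a (Z ∪ K) = Z ∪ K := by
      ext y; rw [mem_nn]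
      exact ⟨fun h => h.1, fun hy => ⟨hy, h a (mem_insert_self _ _) y (by
        rw [insert_union]; exact mem_insert_of_mem hy)⟩⟩
    rw [h2, ih (disjoint_of_subset_left (subset_insert _ _) hd)]
    · ring
    · intro x hx y hy
      exact h x (mem_insert_of_mem hx) y (by rw [insert_union]; exact mem_insert_of_mem hy)

theorem ind_edge (G : SimpleGraph V) {u v : V} {W : Finset V} (hu : u ∉ insert v W) (hv : v ∉ W)
    (h : G.Adj u v) : ind G (insert u (insert v W)) ≤ 3 * ind G W := by
  rw [ind_insert G hu, ind_insert G hv, nn_insert_adj W h]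
  have h1 := ind_mono G (nn_sub G u W)
  have h2 := ind_mono G (nn_sub G v W)
  omega

theorem split_edge {G : SimpleGraph V} {u v : V} {W : Finset V} (hu : u ∈ W) (hv : v ∈ W)
    (h : G.Adj u v) : ∃ W' : Finset V, W = insert u (insert v W') ∧ u ∉ insert v W' ∧ v ∉ W' ∧
      W.card = W'.card + 2 := by
  refine ⟨(W.erase u).erase v, ?_, ?_, ?_, ?_⟩
  · rw [insert_erase (mem_erase.2 ⟨h.ne', hv⟩), insert_erase hu]
  · simp [h.ne]
  · simp
  · have := card_erase_add_one hu
    have := card_erase_add_one (mem_erase.2 ⟨h.ne', hv⟩)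
    omega

open Classical in
theorem core (G : SimpleGraph V) (t : ℕ) : ∀ W : Finset V,
    (∀ x ∈ W, (W.filter (fun y => G.Adj x y)).card ≤ 5) →
    3 ^ (t + 1) * 2 ^ W.card < 4 ^ (t + 1) * ind G W →
    ∃ K : Finset V, K.card ≤ 10 * t ∧ ∀ x ∈ W, x ∉ K → ∀ y ∈ W, ¬ G.Adj x y := by
  induction t with
  | zero =>
    intro W _ h
    refine ⟨∅, by simp, fun x hx _ y hy hxy => ?_⟩
    obtain ⟨W', rfl, h1, h2, h3⟩ := split_edge hx hy hxy
    have h4 := ind_edge G h1 h2 hxy
    have h5 := ind_le G W'
    rw [h3, pow_add 2] at h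
    simp only [zero_add, pow_one] at h
    omega
  | succ t ih =>
    intro W hd h
    by_cases he : ∃ x ∈ W, ∃ y ∈ W, G.Adj x y
    · obtain ⟨u, hu, v, hv, huv⟩ := he
      obtain ⟨W', hW, h1, h2, h3⟩ := split_edge hu hv huv
      have hsub : W' ⊆ W := by
        rw [hW]; exact (subset_insert _ _).trans (subset_insert _ _)
      have h4 := ind_edge G h1 h2 huv
      rw [← hW] at h4
      obtain ⟨K, hK, hK2⟩ := ih W' (fun x hx => (card_le_card (filter_subset_filter _ hsub)).trans
        (hd x (hsub hx))) (by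
          rw [h3, pow_add 2, pow_succ 3 (t + 1), pow_succ 4 (t + 1)] at h
          have h5 : 4 ^ (t + 1) * 4 * ind G W ≤ 4 ^ (t + 1) * 4 * (3 * ind G W') :=
            Nat.mul_le_mul_left _ h4
          nlinarith)
      refine ⟨K ∪ W.filter (fun y => G.Adj u y) ∪ W.filter (fun y => G.Adj v y), ?_, ?_⟩
      · have a1 := card_union_le (K ∪ W.filter (fun y => G.Adj u y)) (W.filter (fun y => G.Adj v y))
        have a2 := card_union_le K (W.filter (fun y => G.Adj u y))
        have a3 := hd u hu
        have a4 := hd v hv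
        omega
      · intro x hx hxK y hy hxy
        simp only [mem_union, mem_filter, not_or, not_and] at hxK
        obtain ⟨⟨b1, b2⟩, b3⟩ := hxK
        have hxW : x ∈ W' := by
          rw [hW] at hx
          rcases mem_insert.1 hx with rfl | hx'
          · exact absurd huv.symm (b3 hu)
          rcases mem_insert.1 hx' with rfl | hx'
          · exact absurd huv (b2 hv)
          exact hx'
        have hy' := hy
        rw [hW] at hy'
        rcases mem_insert.1 hy' with rfl | hy'
        · exact b2 hx hxy.symm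
        rcases mem_insert.1 hy' with rfl | hy'
        · exact b3 hx hxy.symm
        exact hK2 x hxW b1 y hy' hxy
    · push Not at he
      exact ⟨∅, by simp, fun x hx _ y hy => he x hx y hy⟩

/-- a number of the form `2^j * c` with `c ≤ 2^70` -/
def Tm (x : ℕ) : Prop := ∃ j, 2 ^ j ∣ x ∧ x ≤ 2 ^ (j + 70)

theorem tm_of_core (G : SimpleGraph V) {W K : Finset V} (hK : K.card ≤ 70)
    (h : ∀ x ∈ W, x ∉ K → ∀ y ∈ W, ¬ G.Adj x y) {X : Finset V} (hX : X ⊆ W) : Tm (ind G X) := by
  have e : X = (X \ K) ∪ (X ∩ K) := by rw [sdiff_union_inter]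
  refine ⟨(X \ K).card, ?_⟩
  have h1 := ind_iso G (X ∩ K) (X \ K) (disjoint_sdiff_inter _ _) (by
    intro x hx y hy
    rw [← e] at hy
    exact h x (hX (mem_sdiff.1 hx).1) (mem_sdiff.1 hx).2 y (hX hy))
  rw [← e] at h1
  rw [h1]
  refine ⟨Dvd.intro _ rfl, ?_⟩
  rw [pow_add]
  apply Nat.mul_le_mul_left
  exact (ind_le G _).trans (Nat.pow_le_pow_right (by norm_num)
    ((card_le_card inter_subset_right).trans hK))

end Pool.Agent.H.MP_1f0029_co
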