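import Mathlib

set_option autoImplicit false

namespace Pool.Agent.H.MP_1f0029_co

open Finset

theorem cut {N : ℕ} (hN : N ≤ 8) (f j : Fin N → ℕ) (w θ : ℕ) (hd : ∀ r, 2 ^ j r ∣ f r)
    (hl : ∀ r, f r ≤ 2 ^ (j r + w)) (hg : ∀ r, θ ≤ j r ∨ j r + w + 4 ≤ θ) :
    ∑ r ∈ univ.filter (fun r => j r < θ), f r = (∑ r, f r) % 2 ^ θ := by
  rw [← sum_filter_add_sum_filter_not univ (fun r => j r < θ)]
  have h1 : 2 ^ θ ∣ ∑ r ∈ univ.filter (fun r => ¬ j r < θ), f r := by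
    apply dvd_sum
    intro r hr
    exact (pow_dvd_pow 2 (by simpa using hr)).trans (hd r)
  obtain ⟨c, hc⟩ := h1
  rw [hc, Nat.add_mul_mod_self_left, Nat.mod_eq_of_lt]
  by_cases h4 : 4 ≤ θ
  · obtain ⟨t, rfl⟩ : ∃ t, θ = t + 4 := ⟨θ - 4, by omega⟩
    have h2 : ∑ r ∈ univ.filter (fun r => j r < t + 4), f r ≤
        (univ.filter (fun r => j r < t + 4)).card • 2 ^ t := by
      apply sum_le_card_nsmul
      intro r hr
      have h3 : j r < t + 4 := by simpa using hr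
      exact (hl r).trans (Nat.pow_le_pow_right (by norm_num) (by have := hg r; omega))
    have h3 : (univ.filter (fun r => j r < t + 4)).card ≤ 8 :=
      (card_filter_le _ _).trans (by simpa using hN)
    have h5 : 0 < 2 ^ t := by positivity
    rw [smul_eq_mul] at h2
    rw [pow_add]
    nlinarith
  · rw [filter_false_of_mem]
    · simp
    · intro r _; have := hg r; omega

theorem good_ex {N : ℕ} (j : Fin N → ℕ) (w a : ℕ) :
    ∃ θ, a < θ ∧ θ ≤ a + (N + 1) * (w + 4) ∧ ∀ r, θ ≤ j r ∨ j r + w + 4 ≤ θ := by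
  by_contra h
  push Not at h
  have h1 : ∀ i : Fin (N + 1), ∃ r, j r < a + (i + 1) * (w + 4) ∧
      a + (i + 1) * (w + 4) < j r + w + 4 := by
    intro i
    apply h
    · have : 0 < (i.val + 1) * (w + 4) := by positivity
      omega
    · have := Nat.mul_le_mul_right (w + 4) (show i.val + 1 ≤ N + 1 by omega)
      omega
  choose g hg using h1
  have hinj : Function.Injective g := by
    intro i i' hi
    have a1 := hg i
    have a2 := hg i'
    rw [hi] at a1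
    by_contra hne
    rcases lt_or_gt_of_ne (fun h => hne (Fin.ext h)) with hlt | hlt
    · have := Nat.mul_le_mul_right (w + 4) (show i.val + 1 + 1 ≤ i'.val + 1 by omega)
      rw [add_mul (i.val + 1)] at this
      omega
    · have := Nat.mul_le_mul_right (w + 4) (show i'.val + 1 + 1 ≤ i.val + 1 by omega)
      rw [add_mul (i'.val + 1)] at this
      omega
  have := Fintype.card_le_of_injective g hinj
  simp at this

theorem add_mod_eq {θ e y x : ℕ} (h1 : θ ≤ e) : (2 ^ e + y) % 2 ^ θ = x ↔ y % 2 ^ θ = x := by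
  obtain ⟨c, hc⟩ := pow_dvd_pow 2 h1
  rw [hc, add_comm, Nat.add_mul_mod_self_left]

/-- partial sums -/
def P1 : ℕ := 2 ^ 2000 + 1
def P2 : ℕ := 2 ^ 2500 + P1
def P3 : ℕ := 2 ^ 3000 + P2
def P4 : ℕ := 2 ^ 3500 + P3
def P5 : ℕ := 2 ^ 7000 + P4

theorem lt_step {e e' y : ℕ} (h : y < 2 ^ e') (he : e' ≤ e) : 2 ^ e + y < 2 ^ (e + 1) := by
  have := Nat.pow_le_pow_right (show 0 < 2 by norm_num) he
  rw [pow_succ]; omega

theorem P1_lt : P1 < 2 ^ 2001 := lt_step (e' := 1) (by norm_num) (by norm_num)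
theorem P2_lt : P2 < 2 ^ 2501 := lt_step P1_lt (by norm_num)
theorem P3_lt : P3 < 2 ^ 3001 := lt_step P2_lt (by norm_num)
theorem P4_lt : P4 < 2 ^ 3501 := lt_step P3_lt (by norm_num)

theorem md {x e θ : ℕ} (h : x < 2 ^ e) (he : e ≤ θ) : x % 2 ^ θ = x :=
  Nat.mod_eq_of_lt (h.trans_le (Nat.pow_le_pow_right (by norm_num) he))

theorem m0 {θ : ℕ} (h1 : 0 < θ) (h2 : θ ≤ 2000) : P4 % 2 ^ θ = 1 := by
  unfold P4 P3 P2 P1
  rw [add_mod_eq (by omega), add_mod_eq (by omega), add_mod_eq (by omega), add_mod_eq (by omega)]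
  exact md (e := 1) (by norm_num) h1
theorem m1 {θ : ℕ} (h1 : 2000 < θ) (h2 : θ ≤ 2500) : P4 % 2 ^ θ = P1 := by
  unfold P4 P3 P2
  rw [add_mod_eq (by omega), add_mod_eq (by omega), add_mod_eq (by omega)]
  exact md P1_lt h1
theorem m2 {θ : ℕ} (h1 : 2500 < θ) (h2 : θ ≤ 3000) : P4 % 2 ^ θ = P2 := by
  unfold P4 P3
  rw [add_mod_eq (by omega), add_mod_eq (by omega)]
  exact md P2_lt h1
theorem m3 {θ : ℕ} (h1 : 3000 < θ) (h2 : θ ≤ 3500) : P4 % 2 ^ θ = P3 := by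
  unfold P4
  rw [add_mod_eq (by omega)]
  exact md P3_lt h1
theorem m4 {θ : ℕ} (h1 : 3500 < θ) : P4 % 2 ^ θ = P4 := md P4_lt h1
theorem m5 {θ : ℕ} (h2 : θ ≤ 7000) : P5 % 2 ^ θ = P4 % 2 ^ θ := by
  unfold P5
  rw [add_mod_eq h2]

theorem inc : 1 < P1 ∧ P1 < P2 ∧ P2 < P3 ∧ P3 < P4 := by
  refine ⟨?_, ?_, ?_, ?_⟩
  · unfold P1; exact Nat.lt_add_of_pos_left (by positivity)
  · unfold P2; exact Nat.lt_add_of_pos_left (by positivity)
  · unfold P3; exact Nat.lt_add_of_pos_left (by positivity)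
  · unfold P4; exact Nat.lt_add_of_pos_left (by positivity)

theorem card_lt {N : ℕ} (f j : Fin N → ℕ) {θ θ' : ℕ} (h : θ ≤ θ')
    (h2 : ∑ r ∈ univ.filter (fun r => j r < θ), f r < ∑ r ∈ univ.filter (fun r => j r < θ'), f r) :
    (univ.filter (fun r => j r < θ)).card < (univ.filter (fun r => j r < θ')).card := by
  apply card_lt_card
  refine ⟨fun r hr => ?_, fun h3 => ?_⟩
  · simp only [mem_filter, mem_univ, true_and] at hr ⊢; omega
  · exact absurd (sum_le_sum_of_subset h3) (not_le.2 h2)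

theorem four (f j : Fin 4 → ℕ) (hd : ∀ r, 2 ^ j r ∣ f r) (hl : ∀ r, f r ≤ 2 ^ (j r + 70)) :
    ∑ r, f r ≠ P5 := by
  intro h
  obtain ⟨t0, a0, b0, c0⟩ := good_ex j 70 0
  obtain ⟨t1, a1, b1, c1⟩ := good_ex j 70 2000
  obtain ⟨t2, a2, b2, c2⟩ := good_ex j 70 2500
  obtain ⟨t3, a3, b3, c3⟩ := good_ex j 70 3000
  obtain ⟨t4, a4, b4, c4⟩ := good_ex j 70 3500
  have d0 := cut (by norm_num) f j 70 t0 hd hl c0
  have d1 := cut (by norm_num) f j 70 t1 hd hl c1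
  have d2 := cut (by norm_num) f j 70 t2 hd hl c2
  have d3 := cut (by norm_num) f j 70 t3 hd hl c3
  have d4 := cut (by norm_num) f j 70 t4 hd hl c4
  rw [h, m5 (by omega)] at d0 d1 d2 d3 d4
  rw [m0 a0 (by omega)] at d0
  rw [m1 a1 (by omega)] at d1
  rw [m2 a2 (by omega)] at d2
  rw [m3 a3 (by omega)] at d3
  rw [m4 a4] at d4
  obtain ⟨i1, i2, i3, i4⟩ := inc
  have e0 := card_lt f j (Nat.zero_le t0) (by rw [d0]; simp)
  have e1 := card_lt f j (show t0 ≤ t1 by omega) (by rw [d0, d1]; exact i1)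
  have e2 := card_lt f j (show t1 ≤ t2 by omega) (by rw [d1, d2]; exact i2)
  have e3 := card_lt f j (show t2 ≤ t3 by omega) (by rw [d2, d3]; exact i3)
  have e4 := card_lt f j (show t3 ≤ t4 by omega) (by rw [d3, d4]; exact i4)
  have e5 : (univ.filter (fun r => j r < t4)).card ≤ 4 := (card_filter_le _ _).trans (by simp)
  omega

theorem pw_near {N : ℕ} (hN : N ≤ 7) (a : Fin N → ℕ) (h : ∑ r, 2 ^ a r = P4) (r : Fin N) :
    a r = 0 ∨ (1960 < a r ∧ a r ≤ 2000) ∨ (2460 < a r ∧ a r ≤ 2500) ∨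
      (2960 < a r ∧ a r ≤ 3000) ∨ (3460 < a r ∧ a r ≤ 3500) := by
  obtain ⟨t, a0, b0, c0⟩ := good_ex a 0 (a r)
  have b1 : t ≤ a r + 32 := by nlinarith
  have d := cut (by omega) (fun r => 2 ^ a r) a 0 t (fun _ => dvd_rfl) (fun _ => le_rfl) c0
  rw [h] at d
  have e : 2 ^ a r ≤ P4 % 2 ^ t := by
    rw [← d]
    exact single_le_sum (f := fun r => 2 ^ a r) (fun _ _ => Nat.zero_le _) (by simpa using a0)
  have key : ∀ x e', P4 % 2 ^ t = x → x < 2 ^ e' → a r < e' := by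
    intro x e' h1 h2
    exact (Nat.pow_lt_pow_iff_right (by norm_num)).1 (e.trans_lt (h1 ▸ h2))
  by_contra hc
  by_cases k1 : a r ≤ 1960
  · have := key 1 1 (m0 (by omega) (by omega)) (by norm_num); omega
  by_cases k2 : a r ≤ 2460
  · have := key _ _ (m1 (by omega) (by omega)) P1_lt; omega
  by_cases k3 : a r ≤ 2960
  · have := key _ _ (m2 (by omega) (by omega)) P2_lt; omega
  by_cases k4 : a r ≤ 3460
  · have := key _ _ (m3 (by omega) (by omega)) P3_lt; omega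
  · have := key _ _ (m4 (by omega)) P4_lt; omega

theorem pw_cut {N : ℕ} (hN : N ≤ 7) (a : Fin N → ℕ) (h : ∑ r, 2 ^ a r = P4) (t : ℕ)
    (ht : t = 10 ∨ t = 2010 ∨ t = 2510 ∨ t = 3010 ∨ t = 3510) :
    ∑ r ∈ univ.filter (fun r => a r < t), 2 ^ a r = P4 % 2 ^ t := by
  rw [← h]
  apply cut (by omega) (fun r => 2 ^ a r) a 0 t (fun _ => dvd_rfl) (fun _ => le_rfl)
  intro r
  have := pw_near hN a h r
  omega

theorem pw_ex {N : ℕ} (a : Fin N → ℕ) {t t' : ℕ}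
    (h : ∑ r ∈ univ.filter (fun r => a r < t), 2 ^ a r <
      ∑ r ∈ univ.filter (fun r => a r < t'), 2 ^ a r) : ∃ r, t ≤ a r ∧ a r < t' := by
  by_contra hc
  push Not at hc
  refine absurd (sum_le_sum_of_subset fun r hr => ?_) (not_le.2 h)
  simp only [mem_filter, mem_univ, true_and] at hr ⊢
  have := hc r; omega

theorem pw_all {N : ℕ} (hN : N ≤ 7) (a : Fin N → ℕ) (h : ∑ r, 2 ^ a r = P4) :
    (∃ r, a r < 10) ∧ (∃ r, 10 ≤ a r ∧ a r < 2010) ∧ (∃ r, 2010 ≤ a r ∧ a r < 2510) ∧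
    (∃ r, 2510 ≤ a r ∧ a r < 3010) ∧ (∃ r, 3010 ≤ a r ∧ a r < 3510) ∧
    ∀ r r', r ≠ r' → a r = 0 → a r' ≠ 0 := by
  have d0 := pw_cut hN a h 10 (by simp)
  have d1 := pw_cut hN a h 2010 (by simp)
  have d2 := pw_cut hN a h 2510 (by simp)
  have d3 := pw_cut hN a h 3010 (by simp)
  have d4 := pw_cut hN a h 3510 (by simp)
  rw [m0 (by omega) (by omega)] at d0
  rw [m1 (by omega) (by omega)] at d1
  rw [m2 (by omega) (by omega)] at d2
  rw [m3 (by omega) (by omega)] at d3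
  rw [m4 (by omega)] at d4
  obtain ⟨i1, i2, i3, i4⟩ := inc
  refine ⟨?_, pw_ex a (by rw [d0, d1]; exact i1), pw_ex a (by rw [d1, d2]; exact i2),
    pw_ex a (by rw [d2, d3]; exact i3), pw_ex a (by rw [d3, d4]; exact i4), ?_⟩
  · obtain ⟨r, -, hr⟩ := pw_ex a (t := 0) (t' := 10) (by rw [d0]; simp)
    exact ⟨r, hr⟩
  · intro r r' hne h1 h2
    have : ∑ x ∈ ({r, r'} : Finset (Fin N)), 2 ^ a x ≤
        ∑ r ∈ univ.filter (fun r => a r < 10), 2 ^ a r := by
      apply sum_le_sum_of_subset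
      intro x hx
      simp only [mem_insert, mem_singleton] at hx
      rcases hx with rfl | rfl <;> simp [h1, h2]
    rw [sum_pair hne, d0, h1, h2] at this
    omega

end Pool.Agent.H.MP_1f0029_co
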