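import Pool.Agent.H.MP_1f0029_co.A
import Pool.Agent.H.MP_1f0029_co.B

set_option autoImplicit false

namespace Pool.Agent.H.MP_1f0029_co

open Finset

variable {V : Type} [DecidableEq V]

theorem ind_two_adj (G : SimpleGraph V) {v w : V} {W : Finset V} (hv : v ∉ insert w W)
    (hw : w ∉ W) (h : G.Adj v w) :
    ind G (insert v (insert w W)) = ind G W + ind G (nn G w W) + ind G (nn G v W) := by
  rw [ind_insert G hv, ind_insert G hw, nn_insert_adj W h]

theorem ind_two_nadj (G : SimpleGraph V) {v w : V} {W : Finset V} (hv : v ∉ insert w W)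
    (hw : w ∉ W) (h : ¬ G.Adj v w) :
    ind G (insert v (insert w W)) = ind G W + ind G (nn G w W) + ind G (nn G v W) +
      ind G (nn G w (nn G v W)) := by
  rw [ind_insert G hv, ind_insert G hw, nn_insert_nadj W h,
    ind_insert G (fun h' => hw (nn_sub _ _ _ h'))]
  ring

/-- a configuration that no comparability graph contains -/
def Good (G : SimpleGraph V) : Prop :=
  ∀ u v w x y z : V, G.Adj u v → ¬ G.Adj u w → ¬ G.Adj v w → u ≠ w → v ≠ w →
    G.Adj u y → G.Adj w y → ¬ G.Adj v y → y ≠ v → G.Adj v z → G.Adj w z →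
    G.Adj v x → ¬ G.Adj u x → ¬ G.Adj w x → x ≠ u → ¬ G.Adj x y → ¬ G.Adj y z → ¬ G.Adj x z → False

theorem five_aux {G : SimpleGraph V} (hG : Good G) {u v w : V} {W : Finset V}
    (hW : ∀ x ∈ W, ∀ y ∈ W, ¬ G.Adj x y) (hu : u ∉ W) (hv : v ∉ W)
    (h1 : G.Adj u v) (h2 : ¬ G.Adj u w) (h3 : ¬ G.Adj v w) (h4 : u ≠ w) (h5 : v ≠ w)
    (c0 : (nn G w (nn G v W)).card = 0) (c1 : 0 < (nn G w (nn G u W)).card)
    (c2 : (nn G v W).card + (nn G w W).card < W.card)
    (c3 : (nn G u W).card < (nn G v W).card + (nn G w (nn G u W)).card) : False := by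
  have d0 : ∀ t ∈ W, ¬ G.Adj v t → G.Adj w t := by
    intro t ht h
    by_contra h'
    have : t ∈ nn G w (nn G v W) := mem_nn.2 ⟨mem_nn.2 ⟨ht, h⟩, h'⟩
    rw [card_eq_zero.1 c0] at this
    simp at this
  obtain ⟨x, hx⟩ := card_pos.1 c1
  obtain ⟨hx1, hx2⟩ := mem_nn.1 hx
  obtain ⟨hx0, hx1⟩ := mem_nn.1 hx1
  have hx3 : G.Adj v x := by
    by_contra h; exact hx2 (d0 x hx0 h)
  obtain ⟨z, hz0, hz⟩ : ∃ z ∈ W, z ∉ nn G v W ∪ nn G w W :=
    exists_mem_notMem_of_card_lt_card ((card_union_le _ _).trans_lt c2)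
  simp only [mem_union, mem_nn, not_or, not_and, not_not] at hz
  obtain ⟨y, hy0, hy1, hy2⟩ : ∃ y ∈ W, ¬ G.Adj v y ∧ G.Adj u y := by
    by_contra h
    push Not at h
    have e1 : nn G v W ∪ nn G w (nn G u W) ⊆ nn G u W := by
      apply union_subset _ (nn_sub _ _ _)
      intro t ht
      exact mem_nn.2 ⟨(mem_nn.1 ht).1, h t (mem_nn.1 ht).1 (mem_nn.1 ht).2⟩
    have e2 : Disjoint (nn G v W) (nn G w (nn G u W)) := by
      rw [disjoint_left]
      intro t ht ht'
      exact (mem_nn.1 ht').2 (d0 t (mem_nn.1 ht).1 (mem_nn.1 ht).2)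
    have := card_le_card e1
    rw [card_union_of_disjoint e2] at this
    omega
  exact hG u v w x y z h1 h2 h3 h4 h5 hy2 (d0 y hy0 hy1) hy1 (fun h => hv (h ▸ hy0)) (hz.1 hz0)
    (hz.2 hz0) hx3 hx1 hx2 (fun h => hu (h ▸ hx0)) (hW x hx0 y hy0) (hW y hy0 z hz0)
    (hW x hx0 z hz0)

theorem five {G : SimpleGraph V} (hG : Good G) {u v w : V} {W : Finset V}
    (hW : ∀ x ∈ W, ∀ y ∈ W, ¬ G.Adj x y) (hc : W.card = 7000) (hu : u ∉ W) (hv : v ∉ W)
    (h1 : G.Adj u v) (h2 : ¬ G.Adj u w) (h3 : ¬ G.Adj v w) (h4 : u ≠ w) (h5 : v ≠ w) :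
    2 ^ (nn G u W).card + 2 ^ (nn G v W).card + 2 ^ (nn G w W).card +
      2 ^ (nn G w (nn G u W)).card + 2 ^ (nn G w (nn G v W)).card ≠ P4 := by
  intro h
  have s1 : (nn G w (nn G u W)).card ≤ (nn G u W).card := card_le_card (nn_sub _ _ _)
  have s2 : (nn G w (nn G v W)).card ≤ (nn G v W).card := card_le_card (nn_sub _ _ _)
  have s3 : (nn G w (nn G u W)).card ≤ (nn G w W).card := card_le_card (fun t ht =>
    mem_nn.2 ⟨(mem_nn.1 (mem_nn.1 ht).1).1, (mem_nn.1 ht).2⟩)
  have s4 : (nn G w (nn G v W)).card ≤ (nn G w W).card := card_le_card (fun t ht =>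
    mem_nn.2 ⟨(mem_nn.1 (mem_nn.1 ht).1).1, (mem_nn.1 ht).2⟩)
  have k1 := five_aux hG hW hu hv h1 h2 h3 h4 h5
  have k2 := five_aux hG hW hv hu h1.symm h3 h2 h5 h4
  generalize (nn G u W).card = a at *
  generalize (nn G v W).card = b at *
  generalize (nn G w W).card = c at *
  generalize (nn G w (nn G u W)).card = d at *
  generalize (nn G w (nn G v W)).card = e at *
  have h' : ∑ r : Fin 5, 2 ^ (![a, b, c, d, e] r) = P4 := by
    rw [← h]; simp [Fin.sum_univ_succ]; ring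
  have n0 := pw_near (by norm_num) _ h' 0
  have n1 := pw_near (by norm_num) _ h' 1
  have n2 := pw_near (by norm_num) _ h' 2
  have n3 := pw_near (by norm_num) _ h' 3
  have n4 := pw_near (by norm_num) _ h' 4
  obtain ⟨p0, p1, p2, p3, p4, -⟩ := pw_all (by norm_num) _ h'
  simp only [Fin.exists_fin_succ, Fin.succ_zero_eq_one, Matrix.cons_val_zero, Matrix.cons_val_succ,
    IsEmpty.exists_iff, or_false] at p0 p1 p2 p3 p4
  simp only [Matrix.cons_val_zero, Matrix.cons_val_one, Matrix.cons_val] at n0 n1 n2 n3 n4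
  rw [hc] at k1 k2
  by_cases he : e = 0
  · exact k1 he (by omega) (by omega) (by omega)
  · exact k2 (by omega) (by omega) (by omega) (by omega)

theorem four' (a b c d : ℕ) : 2 ^ a + 2 ^ b + 2 ^ c + 2 ^ d ≠ P4 := by
  intro h
  have h' : ∑ r : Fin 4, 2 ^ (![a, b, c, d] r) = P4 := by
    rw [← h]; simp [Fin.sum_univ_succ]; ring
  obtain ⟨p0, p1, p2, p3, p4, -⟩ := pw_all (by norm_num) _ h'
  simp only [Fin.exists_fin_succ, Fin.succ_zero_eq_one, Matrix.cons_val_zero, Matrix.cons_val_succ,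
    IsEmpty.exists_iff, or_false] at p0 p1 p2 p3 p4
  omega

theorem three' (a b c : ℕ) : 2 ^ a + 2 ^ b + 2 ^ c ≠ P4 := by
  intro h
  have h' : ∑ r : Fin 3, 2 ^ (![a, b, c] r) = P4 := by
    rw [← h]; simp [Fin.sum_univ_succ]; ring
  obtain ⟨p0, p1, p2, p3, p4, -⟩ := pw_all (by norm_num) _ h'
  simp only [Fin.exists_fin_succ, Fin.succ_zero_eq_one, Matrix.cons_val_zero, Matrix.cons_val_succ,
    IsEmpty.exists_iff, or_false] at p0 p1 p2 p3 p4
  omega

theorem seven (a b c d e f g : ℕ) (h1 : g ≤ a) (h2 : g ≤ b) (h3 : g ≤ c) (h4 : g ≤ d) (h5 : g ≤ e)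
    (h6 : g ≤ f) (h7 : d + e ≤ a + g) :
    2 ^ a + 2 ^ b + 2 ^ c + 2 ^ d + 2 ^ e + 2 ^ f + 2 ^ g ≠ P4 := by
  intro h
  have h' : ∑ r : Fin 7, 2 ^ (![a, b, c, d, e, f, g] r) = P4 := by
    rw [← h]; simp [Fin.sum_univ_succ]; ring
  have n0 := pw_near (by norm_num) _ h' 0
  have n3 := pw_near (by norm_num) _ h' 3
  have n4 := pw_near (by norm_num) _ h' 4
  have n6 := pw_near (by norm_num) _ h' 6
  obtain ⟨p0, -, -, -, -, p5⟩ := pw_all (by norm_num) _ h'
  have q1 := p5 6 3 (by decide)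
  have q2 := p5 6 4 (by decide)
  simp only [Fin.exists_fin_succ, Fin.succ_zero_eq_one, Matrix.cons_val_zero, Matrix.cons_val_succ,
    IsEmpty.exists_iff, or_false] at p0
  simp only [Matrix.cons_val_zero, Matrix.cons_val_one, Matrix.cons_val] at n0 n3 n4 n6 q1 q2
  have hg : g = 0 := by omega
  have := q1 hg
  have := q2 hg
  omega

theorem nn_comm (G : SimpleGraph V) (u v : V) (W : Finset V) :
    nn G u (nn G v W) = nn G v (nn G u W) := by
  ext t; simp only [mem_nn]; tauto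

theorem three_case {G : SimpleGraph V} (hG : Good G) {u v w : V} {W : Finset V}
    (hW : ∀ x ∈ W, ∀ y ∈ W, ¬ G.Adj x y) (hc : W.card = 7000)
    (hu : u ∉ insert v (insert w W)) (hv : v ∉ insert w W) (hw : w ∉ W) :
    ind G (insert u (insert v (insert w W))) ≠ P5 := by
  have e : ∀ X ⊆ W, ind G X = 2 ^ X.card := fun X hX =>
    ind_indep G (fun x hx y hy => hW x (hX hx) y (hX hy))
  have e0 := e W subset_rfl
  have e1 := fun a => e _ (nn_sub G a W)
  have e2 := fun a b => e _ ((nn_sub G a _).trans (nn_sub G b W))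
  have e3 := fun a b c => e _ ((nn_sub G a _).trans ((nn_sub G b _).trans (nn_sub G c W)))
  have huv : u ≠ v := fun h => hu (by simp [h])
  have huw : u ≠ w := fun h => hu (by simp [h])
  have hvw : v ≠ w := fun h => hv (by simp [h])
  have huW : u ∉ W := fun h => hu (by simp [h])
  have hvW : v ∉ W := fun h => hv (by simp [h])
  have hw' : w ∉ nn G u W := fun h => hw (nn_sub _ _ _ h)
  have hv' : v ∉ nn G u W := fun h => hvW (nn_sub _ _ _ h)
  have hv'' : v ∉ insert w (nn G u W) := by simp [hvw, hv']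
  rw [ind_insert G hu]
  unfold P5
  intro h
  by_cases a1 : G.Adj u v <;> by_cases a2 : G.Adj u w <;> by_cases a3 : G.Adj v w
  · rw [ind_two_adj G hv hw a3, nn_insert_adj _ a1, nn_insert_adj _ a2, e0, e1, e1, e1, hc] at h
    exact three' (nn G w W).card (nn G v W).card (nn G u W).card (by omega)
  · rw [ind_two_nadj G hv hw a3, nn_insert_adj _ a1, nn_insert_adj _ a2, e0, e1, e1, e1, e2,
      hc] at h
    exact four' (nn G w W).card (nn G v W).card (nn G u W).card (nn G w (nn G v W)).card (by omega)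
  · rw [ind_two_adj G hv hw a3, nn_insert_adj _ a1, nn_insert_nadj _ a2, ind_insert G hw',
      e0, e1, e1, e1, e2, hc] at h
    exact four' (nn G w W).card (nn G v W).card (nn G u W).card (nn G w (nn G u W)).card (by omega)
  · rw [ind_two_nadj G hv hw a3, nn_insert_adj _ a1, nn_insert_nadj _ a2, ind_insert G hw',
      e0, e1, e1, e1, e2, e2, hc] at h
    exact five hG hW hc huW hvW a1 a2 a3 huw hvw (by omega)
  · rw [ind_two_adj G hv hw a3, nn_insert_nadj _ a1, nn_insert_adj _ a2, ind_insert G hv',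
      e0, e1, e1, e1, e2, hc] at h
    exact four' (nn G w W).card (nn G v W).card (nn G u W).card (nn G v (nn G u W)).card (by omega)
  · rw [ind_two_nadj G hv hw a3, nn_insert_nadj _ a1, nn_insert_adj _ a2, ind_insert G hv',
      e0, e1, e1, e1, e2, e2, hc, nn_comm G w v] at h
    exact five hG hW hc huW hw a2 a1 (fun h => a3 h.symm) huv hvw.symm (by omega)
  · rw [ind_two_adj G hv hw a3, nn_insert_nadj _ a1, nn_insert_nadj _ a2,
      ind_two_adj G hv'' hw' a3, e0, e1, e1, e1, e2, e2, hc, nn_comm G w u, nn_comm G v u] at h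
    exact five hG hW hc hvW hw a3 (fun h => a1 h.symm) (fun h => a2 h.symm) huv.symm huw.symm
      (by omega)
  · rw [ind_two_nadj G hv hw a3, nn_insert_nadj _ a1, nn_insert_nadj _ a2,
      ind_two_nadj G hv'' hw' a3, e0, e1, e1, e1, e2, e2, e2, e3, hc] at h
    refine seven (nn G u W).card (nn G v W).card (nn G w W).card (nn G v (nn G u W)).card
      (nn G w (nn G u W)).card (nn G w (nn G v W)).card (nn G w (nn G v (nn G u W))).card
      ?_ ?_ ?_ ?_ ?_ ?_ ?_ (by omega)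
    iterate 6
      apply card_le_card
      intro t ht
      simp only [mem_nn] at ht ⊢
      tauto
    have b1 := card_union_add_card_inter (nn G v (nn G u W)) (nn G w (nn G u W))
    have b2 : nn G v (nn G u W) ∩ nn G w (nn G u W) = nn G w (nn G v (nn G u W)) := by
      ext t; simp only [mem_nn, mem_inter]; tauto
    have b3 : (nn G v (nn G u W) ∪ nn G w (nn G u W)).card ≤ (nn G u W).card :=
      card_le_card (union_subset (nn_sub _ _ _) (nn_sub _ _ _))
    rw [b2] at b1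
    omega

end Pool.Agent.H.MP_1f0029_co
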