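import Pool.Agent.H.MP_1f0029_co.C

set_option autoImplicit false

namespace Pool.Agent.H.MP_1f0029_co

open Finset

variable {V : Type} [DecidableEq V] [Fintype V]

open Classical in
theorem heavy_le (G : SimpleGraph V) (hV : Fintype.card V = 7003) {v : V} {X : Finset V}
    (hv : v ∉ X) (h : 6 ≤ (univ.filter (fun y => G.Adj v y)).card) :
    ind G (nn G v X) ≤ 2 ^ 6996 := by
  refine (ind_le G _).trans (Nat.pow_le_pow_right (by norm_num) ?_)
  have e1 : Disjoint (nn G v X) (univ.filter (fun y => G.Adj v y)) := by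
    rw [disjoint_left]
    intro t ht ht'
    exact (mem_nn.1 ht).2 (mem_filter.1 ht').2
  have e2 : v ∉ nn G v X ∪ univ.filter (fun y => G.Adj v y) := by
    simp only [mem_union, mem_filter, not_or, not_and]
    exact ⟨fun h => hv (nn_sub _ _ _ h), fun _ => G.irrefl⟩
  have e3 := card_le_univ (insert v (nn G v X ∪ univ.filter (fun y => G.Adj v y)))
  rw [card_insert_of_notMem e2, card_union_of_disjoint e1, hV] at e3
  omega

theorem P5_gt : 2 ^ 7000 < P5 := by
  unfold P5
  have := inc
  omega

theorem no_good {G : SimpleGraph V} (hG : Good G) (hV : Fintype.card V = 7003) :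
    ind G univ ≠ P5 := by
  classical
  intro h
  obtain ⟨Q, hQ, hP⟩ : ∃ Q, 2 ^ 6996 = Q ∧ 16 * Q < P5 := ⟨_, rfl, by
    have c1 : 2 ^ 7000 = 16 * 2 ^ 6996 := by rw [show 7000 = 4 + 6996 from rfl, pow_add]; norm_num
    rw [← c1]; exact P5_gt⟩
  have c2 : 2 ^ 6998 = 4 * Q := by rw [← hQ, show 6998 = 2 + 6996 from rfl, pow_add]; norm_num
  have c3 : 2 ^ 7001 = 32 * Q := by rw [← hQ, show 7001 = 5 + 6996 from rfl, pow_add]; norm_num
  set H : Finset V := univ.filter (fun v => 6 ≤ (univ.filter (fun y => G.Adj v y)).card) with hH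
  by_cases hc : 2 < H.card
  · obtain ⟨u, v, w, hu, hv, hw, huv, huw, hvw⟩ := two_lt_card_iff.1 hc
    have hu' := (mem_filter.1 hu).2
    have hv' := (mem_filter.1 hv).2
    have hw' := (mem_filter.1 hw).2
    set W : Finset V := ((univ.erase u).erase v).erase w with hW
    have a1 : w ∉ W := by simp [hW]
    have a2 : v ∉ insert w W := by simp [hW, hvw]
    have a3 : u ∉ insert v (insert w W) := by simp [hW, huv, huw]
    have a4 : insert u (insert v (insert w W)) = univ := by
      ext t
      simp only [hW, mem_insert, mem_erase, mem_univ, and_true, iff_true]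
      clear * -
      tauto
    have a5 : W.card = 7000 := by
      have := congrArg card a4
      rw [card_insert_of_notMem a3, card_insert_of_notMem a2, card_insert_of_notMem a1,
        card_univ, hV] at this
      clear * - this
      omega
    rw [← a4] at h
    refine three_case hG ?_ a5 a3 a2 a1 h
    intro x hx y hy hxy
    obtain ⟨W', hW', h1, h2, h3⟩ := split_edge hx hy hxy
    have h4 := ind_edge G h1 h2 hxy
    rw [← hW'] at h4
    have h5 := ind_le G W'
    have h6 : W'.card = 6998 := by clear * - h3 a5; omega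
    rw [h6] at h5
    rw [ind_insert G a3, ind_insert G a2, ind_insert G a1] at h
    have b1 := heavy_le G hV a1 hw'
    have b2 := heavy_le G hV a2 hv'
    have b3 := heavy_le G hV a3 hu'
    rw [c2] at h5
    rw [hQ] at b1 b2 b3
    clear * - h h4 h5 b1 b2 b3 hP
    omega
  · obtain ⟨T, hT, hT2⟩ := exists_superset_card_eq (s := H) (n := 2) (not_lt.1 hc) (by rw [hV]; norm_num)
    obtain ⟨v, w, hvw, rfl⟩ := card_eq_two.1 hT2
    set W : Finset V := (univ.erase v).erase w with hW
    have a1 : w ∉ W := by simp [hW]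
    have a2 : v ∉ insert w W := by simp [hW, hvw]
    have a4 : insert v (insert w W) = univ := by
      ext t
      simp only [hW, mem_insert, mem_erase, mem_univ, and_true, iff_true]
      clear * -
      tauto
    have a5 : W.card = 7001 := by
      have := congrArg card a4
      rw [card_insert_of_notMem a2, card_insert_of_notMem a1, card_univ, hV] at this
      clear * - this
      omega
    rw [← a4] at h
    have s1 := nn_sub G v W
    have s2 := nn_sub G w W
    have s3 := (nn_sub G w _).trans s1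
    have b : ∃ x, (x = 0 ∨ x = ind G (nn G w (nn G v W))) ∧
        ind G W + ind G (nn G w W) + ind G (nn G v W) + x = P5 := by
      by_cases a3 : G.Adj v w
      · exact ⟨0, Or.inl rfl, by rw [← h, ind_two_adj G a2 a1 a3]; rfl⟩
      · exact ⟨_, Or.inr rfl, by rw [← h, ind_two_nadj G a2 a1 a3]⟩
    obtain ⟨x, hx, b⟩ := b
    have m1 := ind_mono G s1
    have m2 := ind_mono G s2
    have m3 := ind_mono G s3
    obtain ⟨K, hK, hK2⟩ := core G 7 W (by
      intro t ht
      have : t ∉ H := fun h' => by
        have := hT h'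
        simp only [hW, mem_insert, mem_erase, mem_singleton] at this ht
        clear * - this ht
        tauto
      simp only [hH, mem_filter, mem_univ, true_and, not_le] at this
      have h2 : (W.filter (fun y => G.Adj t y)).card ≤ (univ.filter (fun y => G.Adj t y)).card :=
        card_le_card (filter_subset_filter _ (subset_univ _))
      clear * - this h2
      omega) (by
      rw [a5, c3]
      have : x ≤ ind G W := by
        rcases hx with rfl | rfl
        · exact Nat.zero_le _
        · exact m3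
      clear * - this m1 m2 b hP
      norm_num
      omega)
    obtain ⟨j0, t0⟩ := tm_of_core G hK hK2 subset_rfl
    obtain ⟨j1, t1⟩ := tm_of_core G hK hK2 s2
    obtain ⟨j2, t2⟩ := tm_of_core G hK hK2 s1
    obtain ⟨j3, t3⟩ : Tm x := by
      rcases hx with rfl | rfl
      · exact ⟨0, by simp⟩
      · exact tm_of_core G hK hK2 s3
    refine four ![ind G W, ind G (nn G w W), ind G (nn G v W), x] ![j0, j1, j2, j3] ?_ ?_ ?_
    · intro r; fin_cases r
      exacts [t0.1, t1.1, t2.1, t3.1]
    · intro r; fin_cases r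
      exacts [t0.2, t1.2, t2.2, t3.2]
    · rw [← b]; simp [Fin.sum_univ_succ]; ring

/-- comparability graph -/
def comp (P : Type) [PartialOrder P] : SimpleGraph P where
  Adj x y := x < y ∨ y < x
  symm := ⟨fun _ _ h => h.symm⟩
  loopless := ⟨fun x h => by rcases h with h | h <;> exact lt_irrefl x h⟩

theorem comp_good (P : Type) [PartialOrder P] [DecidableEq P] : Good (comp P) := by
  intro u v w x y z h1 h2 h3 h4 h5 h6 h7 h8 h9 h10 h11 h12 h13 h14 h15 h16 h17 h18
  simp only [comp, not_or] at *
  by_cases h19 : u < z ∨ z < u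
  · rcases h1 with h1 | h1 <;> rcases h6 with h6 | h6 <;> rcases h7 with h7 | h7 <;>
      rcases h10 with h10 | h10 <;> rcases h11 with h11 | h11 <;> rcases h12 with h12 | h12 <;>
      rcases h19 with h19 | h19 <;> order
  · rw [not_or] at h19
    rcases h1 with h1 | h1 <;> rcases h6 with h6 | h6 <;> rcases h7 with h7 | h7 <;>
      rcases h10 with h10 | h10 <;> rcases h11 with h11 | h11 <;> order

/-- the example -/
def exR (a b : ℕ) : Bool :=
  (a == 0 && (b == 1 || (3 ≤ b && b < 3003) || (4503 ≤ b && b < 5003))) ||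
  (a == 1 && ((3 ≤ b && b < 1503) || 4503 ≤ b)) || (a == 2 && (3 ≤ b && b < 4503))

def exG : SimpleGraph (Fin 7003) where
  Adj x y := exR x y = true ∨ exR y x = true
  symm := ⟨fun _ _ h => h.symm⟩
  loopless := ⟨fun x h => by
    simp only [exR, or_self, Bool.or_eq_true, Bool.and_eq_true, beq_iff_eq, decide_eq_true_eq] at h
    omega⟩

theorem card_rng (X : Finset (Fin 7003)) (S : Finset ℕ) (h : ∀ t : Fin 7003, t ∈ X ↔ t.val ∈ S)
    (hS : ∀ s ∈ S, s < 7003) : X.card = S.card := by
  apply card_bij (fun t _ => t.val)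
  · intro t ht; exact (h t).1 ht
  · intro a _ b _ hab; exact Fin.ext hab
  · intro s hs; exact ⟨⟨s, hS s hs⟩, (h _).2 hs, rfl⟩

theorem ex_ind : ind exG univ = P5 := by
  set W : Finset (Fin 7003) := univ.filter (fun t => 3 ≤ t.val) with hW
  have hm : ∀ t, t ∈ W ↔ 3 ≤ t.val := by simp [hW]
  have a1 : (2 : Fin 7003) ∉ W := by rw [hm]; decide
  have a2 : (1 : Fin 7003) ∉ insert 2 W := by rw [mem_insert, hm]; decide
  have a3 : (0 : Fin 7003) ∉ insert 1 (insert 2 W) := by rw [mem_insert, mem_insert, hm]; decide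
  have v0 : (0 : Fin 7003).val = 0 := rfl
  have v1 : (1 : Fin 7003).val = 1 := rfl
  have v2 : (2 : Fin 7003).val = 2 := rfl
  have a4 : insert 0 (insert 1 (insert 2 W)) = univ := by
    ext t
    simp only [mem_insert, hm, mem_univ, iff_true, Fin.ext_iff, v0, v1, v2]
    omega
  have hWi : ∀ x ∈ W, ∀ y ∈ W, ¬ exG.Adj x y := by
    intro x hx y hy h
    rw [hm] at hx hy
    simp only [exG, exR, Bool.or_eq_true, Bool.and_eq_true, beq_iff_eq, decide_eq_true_eq] at h
    omega
  have e : ∀ X ⊆ W, ind exG X = 2 ^ X.card := fun X hX =>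
    ind_indep exG (fun x hx y hy => hWi x (hX hx) y (hX hy))
  have e0 := e W subset_rfl
  have e1 := fun a => e _ (nn_sub exG a W)
  have e2 := fun a b => e _ ((nn_sub exG a _).trans (nn_sub exG b W))
  have b1 : exG.Adj 0 1 := Or.inl (by decide)
  have b2 : ¬ exG.Adj 0 2 := by simp only [exG, v0, v2]; decide
  have b3 : ¬ exG.Adj 1 2 := by simp only [exG, v1, v2]; decide
  have q0 : ∀ t : Fin 7003, exG.Adj 0 t ↔
      (t.val = 1 ∨ (3 ≤ t.val ∧ t.val < 3003) ∨ (4503 ≤ t.val ∧ t.val < 5003)) := by
    intro t; simp only [exG, v0]; simp [exR, or_assoc]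
  have q1 : ∀ t : Fin 7003, exG.Adj 1 t ↔
      (t.val = 0 ∨ (3 ≤ t.val ∧ t.val < 1503) ∨ 4503 ≤ t.val) := by
    intro t; simp only [exG, v1]; simp only [exR]; simp; clear * -; tauto
  have q2 : ∀ t : Fin 7003, exG.Adj 2 t ↔ (3 ≤ t.val ∧ t.val < 4503) := by
    intro t; simp only [exG, v2]; simp [exR]
  have hw' : (2 : Fin 7003) ∉ nn exG 0 W := fun h => a1 (nn_sub _ _ _ h)
  rw [← a4, ind_insert _ a3, ind_two_nadj _ a2 a1 b3, nn_insert_adj _ b1, nn_insert_nadj _ b2,
    ind_insert _ hw', e0, e1, e1, e1, e2, e2]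
  have c0 : W.card = 7000 := by
    rw [card_rng W (Ico 3 7003)]
    · simp
    · intro t; rw [hm, mem_Ico]; omega
    · intro s hs; exact (mem_Ico.1 hs).2
  have c1 : (nn exG 2 W).card = 2500 := by
    rw [card_rng _ (Ico 4503 7003)]
    · simp
    · intro t
      simp only [mem_nn, hm, mem_Ico, q0, q1, q2]
      omega
    · intro s hs; exact (mem_Ico.1 hs).2
  have c2 : (nn exG 1 W).card = 3000 := by
    rw [card_rng _ (Ico 1503 4503)]
    · simp
    · intro t
      simp only [mem_nn, hm, mem_Ico, q0, q1, q2]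
      omega
    · intro s hs; have := (mem_Ico.1 hs).2; omega
  have c3 : (nn exG 2 (nn exG 1 W)).card = 0 := by
    rw [card_rng _ ∅]
    · simp
    · intro t
      simp only [mem_nn, hm, notMem_empty, q0, q1, q2, iff_false]
      omega
    · simp
  have c4 : (nn exG 0 W).card = 3500 := by
    rw [card_rng _ (Ico 3003 4503 ∪ Ico 5003 7003), card_union_of_disjoint]
    · simp
    · rw [disjoint_left]; intro s h1 h2; rw [mem_Ico] at h1 h2; omega
    · intro t
      simp only [mem_nn, hm, mem_union, mem_Ico, q0, q1, q2]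
      omega
    · intro s hs; simp only [mem_union, mem_Ico] at hs; omega
  have c5 : (nn exG 2 (nn exG 0 W)).card = 2000 := by
    rw [card_rng _ (Ico 5003 7003)]
    · simp
    · intro t
      simp only [mem_nn, hm, mem_Ico, q0, q1, q2]
      omega
    · intro s hs; exact (mem_Ico.1 hs).2
  rw [c0, c1, c2, c3, c4, c5]
  unfold P5 P4 P3 P2 P1
  generalize 2 ^ 7000 = x0
  generalize 2 ^ 3500 = x1
  generalize 2 ^ 3000 = x2
  generalize 2 ^ 2500 = x3
  generalize 2 ^ 2000 = x4
  omega

theorem ncard_eq (G : SimpleGraph V) (p : Finset V → Prop) (h : ∀ s, p s ↔ Ip G s) :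
    {s | p s}.ncard = ind G univ := by
  unfold ind
  rw [← Set.ncard_coe_finset]
  congr 1
  ext s
  simp [h]

end Pool.Agent.H.MP_1f0029_co
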